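import Pool.Agent.Q236.CR.Stm2

/-! Project CR, job GAL: the discrete Gallagher lemma. -/

set_option autoImplicit false

namespace Pool.Agent.Q162.CR

open Finset
open Pool.Agent.Q236.CR
open Pool.Agent.H469R2.NK (e)
open Pool.Agent.H300R2.BH (chf)

lemma e_add' (x y : ℝ) : e (x + y) = e x * e y := by
  unfold Pool.Agent.H469R2.NK.e
  rw [← Complex.exp_add]
  congr 1
  push_cast
  ring

lemma norm_e' (x : ℝ) : ‖e x‖ = 1 := by
  unfold Pool.Agent.H469R2.NK.e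
  exact Complex.norm_exp_ofReal_mul_I _

lemma re_e (x : ℝ) : (e x).re = Real.cos (2 * Real.pi * x) := by
  unfold Pool.Agent.H469R2.NK.e
  exact Complex.exp_ofReal_mul_I_re _

lemma half_le_cos {x : ℝ} (h : |x| ≤ 1 / 8) : 1 / 2 ≤ Real.cos (2 * Real.pi * x) := by
  have h1 := Real.one_sub_sq_div_two_le_cos (x := 2 * Real.pi * x)
  have h2 : (2 * Real.pi * x) ^ 2 ≤ 1 := by
    have h3 : |2 * Real.pi * x| ≤ 1 := by
      rw [abs_mul, abs_of_pos (by positivity)]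
      have := Real.pi_lt_d2
      have := Real.pi_pos
      nlinarith [abs_nonneg x]
    have := abs_le.1 h3
    nlinarith
  linarith

lemma kernel_ge {Y : ℕ} (hY : 1 ≤ Y) {θ : ℝ} (h : |θ| ≤ 1 / (8 * (Y : ℝ))) :
    (Y : ℝ) / 2 ≤ ‖∑ l ∈ range Y, e (l * θ)‖ := by
  have hY0 : (0 : ℝ) < Y := by exact_mod_cast hY
  refine le_trans ?_ (Complex.re_le_norm _)
  rw [Complex.re_sum]
  have h1 : ∑ l ∈ range Y, (1 / 2 : ℝ) ≤ ∑ l ∈ range Y, (e (l * θ)).re := by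
    refine Finset.sum_le_sum fun l hl => ?_
    rw [re_e]
    refine half_le_cos ?_
    rw [abs_mul, Nat.abs_cast]
    have h2 : (l : ℝ) ≤ Y := by
      have := Finset.mem_range.1 hl
      exact_mod_cast this.le
    calc (l : ℝ) * |θ| ≤ Y * (1 / (8 * (Y : ℝ))) := by gcongr
      _ = 1 / 8 := by field_simp
  rw [Finset.sum_const, Finset.card_range, nsmul_eq_mul] at h1
  linarith

/-- **GAL** -/
theorem gal : S_GAL := by
  intro f x N Y q b hY hq hN
  have hY0 : (0 : ℝ) < Y := by exact_mod_cast hY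
  have hN0 : (0 : ℝ) < N := by
    have : 0 < N := by omega
    exact_mod_cast this
  set F : ℕ → ℂ := fun m => ∑ n ∈ Finset.Ioc (m - Y) m, cut x f n * e (((n : ℝ) - m) * ((b : ℝ) / q)) with hF
  have hFn : ∀ m, ‖F m‖ = ‖∑ n ∈ Finset.Ioc (m - Y) m, cut x f n * e ((b : ℝ) * n / q)‖ := by
    intro m
    have h1 : F m = (∑ n ∈ Finset.Ioc (m - Y) m, cut x f n * e ((b : ℝ) * n / q)) * e (-(m * ((b : ℝ) / q))) := by
      rw [hF, Finset.sum_mul]
      refine Finset.sum_congr rfl fun n _ => ?_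
      rw [mul_assoc, ← e_add']
      congr 2
      ring
    rw [h1, norm_mul, norm_e', mul_one]
  have hch : ∀ h : ℕ, chf F (x + Y) N h = chf f x N h * ∑ l ∈ range Y, e (l * ((h : ℝ) / N - (b : ℝ) / q)) := by
    intro h
    unfold Pool.Agent.H300R2.BH.chf
    rw [mul_assoc, Finset.sum_mul]
    congr 1
    have h1 : ∀ m : ℕ, F m * e ((m : ℝ) * ((((h : ℕ) : ℤ) : ℝ) / N)) =
        ∑ n ∈ (Finset.Ioc (m - Y) m).filter (fun n => n ≤ x),
          f n * e (((n : ℝ) - m) * ((b : ℝ) / q)) * e ((m : ℝ) * ((h : ℝ) / N)) := by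
      intro m
      rw [hF, Finset.sum_filter, Finset.sum_mul]
      refine Finset.sum_congr rfl fun n _ => ?_
      unfold cut
      split_ifs with h2
      · push_cast
        rfl
      · rw [zero_mul, zero_mul]
    rw [Finset.sum_congr rfl fun m _ => h1 m]
    rw [Finset.sum_comm' (s' := fun n => Finset.Ico n (n + Y)) (t' := Finset.Icc 1 x) (by
      intro m n
      simp only [Finset.mem_Icc, Finset.mem_filter, Finset.mem_Ioc, Finset.mem_Ico]
      omega)]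
    refine Finset.sum_congr rfl fun n _ => ?_
    rw [Finset.sum_Ico_eq_sum_range, Nat.add_sub_cancel_left, Finset.mul_sum]
    refine Finset.sum_congr rfl fun l _ => ?_
    rw [mul_assoc, mul_assoc, ← e_add', ← e_add']
    congr 2
    push_cast
    ring
  have hpar := Pool.Agent.H300R2.BH.ch_parseval F (x + Y) N (by omega)
  have hkey : ∀ h ∈ (Finset.range N).filter (fun h : ℕ => |(h : ℝ) / N - (b : ℝ) / q| ≤ 1 / (8 * (Y : ℝ))),
      ‖chf f x N h‖ ^ 2 ≤ 4 / (Y : ℝ) ^ 2 * ‖chf F (x + Y) N h‖ ^ 2 := by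
    intro h hh
    have h1 := kernel_ge hY (Finset.mem_filter.1 hh).2
    rw [hch, norm_mul, mul_pow, div_mul_eq_mul_div, le_div_iff₀ (by positivity)]
    have h2 : (Y : ℝ) ^ 2 ≤ 4 * ‖∑ l ∈ range Y, e (l * ((h : ℝ) / N - (b : ℝ) / q))‖ ^ 2 := by
      nlinarith
    calc ‖chf f x N h‖ ^ 2 * (Y : ℝ) ^ 2 ≤
        ‖chf f x N h‖ ^ 2 * (4 * ‖∑ l ∈ range Y, e (l * ((h : ℝ) / N - (b : ℝ) / q))‖ ^ 2) := by gcongr
      _ = _ := by ring
  have hsum : ∑ h ∈ range N, ‖chf F (x + Y) N h‖ ^ 2 = (1 / (N : ℝ)) * ∑ n ∈ Finset.Icc 1 (x + Y), ‖F n‖ ^ 2 := by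
    rw [← hpar]
    field_simp
  calc ∑ h ∈ (Finset.range N).filter (fun h : ℕ => |(h : ℝ) / N - (b : ℝ) / q| ≤ 1 / (8 * (Y : ℝ))), ‖chf f x N h‖ ^ 2
      ≤ ∑ h ∈ (Finset.range N).filter (fun h : ℕ => |(h : ℝ) / N - (b : ℝ) / q| ≤ 1 / (8 * (Y : ℝ))),
        4 / (Y : ℝ) ^ 2 * ‖chf F (x + Y) N h‖ ^ 2 := Finset.sum_le_sum hkey
    _ ≤ ∑ h ∈ Finset.range N, 4 / (Y : ℝ) ^ 2 * ‖chf F (x + Y) N h‖ ^ 2 :=
        Finset.sum_le_sum_of_subset_of_nonneg (Finset.filter_subset _ _) fun _ _ _ => by positivity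
    _ = 4 / (N * (Y : ℝ) ^ 2) *
      ∑ m ∈ Finset.Icc 1 (x + Y), ‖∑ n ∈ Finset.Ioc (m - Y) m, cut x f n * e ((b : ℝ) * n / q)‖ ^ 2 := by
        rw [← Finset.mul_sum, hsum]
        simp only [hFn]
        field_simp

end Pool.Agent.Q162.CR
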