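import Pool.Agent.Q236.CR.Stm2

/-! Project CR, job TEL: telescoping. -/

set_option autoImplicit false

namespace Pool.Agent.Q162.CR

open Finset
open Pool.Agent.Q236.CR

section

variable {ι : Type*} [Fintype ι] [DecidableEq ι] {α : ι → Type*}

/-- averaging over one coordinate -/
lemma sum_update (B : (i : ι) → Finset (α i)) (j : ι) (Φ : ((i : ι) → α i) → ℝ) :
    ((B j).card : ℝ) * ∑ c ∈ Fintype.piFinset B, Φ c =
      ∑ c ∈ Fintype.piFinset B, ∑ u ∈ B j, Φ (Function.update c j u) := by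
  rw [← Finset.sum_product']
  have h1 : ((B j).card : ℝ) * ∑ c ∈ Fintype.piFinset B, Φ c =
      ∑ t ∈ Fintype.piFinset B ×ˢ B j, Φ t.1 := by
    rw [Finset.sum_product]
    simp only [Finset.sum_const, nsmul_eq_mul, Finset.mul_sum]
  rw [h1]
  refine Finset.sum_nbij' (fun t => (Function.update t.1 j t.2, t.1 j))
    (fun t => (Function.update t.1 j t.2, t.1 j)) ?_ ?_ ?_ ?_ ?_
  · rintro ⟨c, u⟩ h
    rw [Finset.mem_product, Fintype.mem_piFinset] at h
    rw [Finset.mem_product, Fintype.mem_piFinset]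
    refine ⟨fun i => ?_, h.1 j⟩
    by_cases hi : i = j
    · subst hi
      simpa using h.2
    · simpa [Function.update_of_ne hi] using h.1 i
  · rintro ⟨c, u⟩ h
    rw [Finset.mem_product, Fintype.mem_piFinset] at h
    rw [Finset.mem_product, Fintype.mem_piFinset]
    refine ⟨fun i => ?_, h.1 j⟩
    by_cases hi : i = j
    · subst hi
      simpa using h.2
    · simpa [Function.update_of_ne hi] using h.1 i
  · rintro ⟨c, u⟩ _
    simp
  · rintro ⟨c, u⟩ _
    simp
  · rintro ⟨c, u⟩ _
    simp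

end

lemma card_BX_pos (s H : ℕ) : (0 : ℝ) < (BX s H).card := by
  have : (BX s H).Nonempty := ⟨fun _ => 0, by
    unfold BX
    rw [Fintype.mem_piFinset]
    intro i
    simp⟩
  exact_mod_cast this.card_pos

lemma card_BX (s H : ℕ) : ((BX s H).card : ℝ) = (2 * (H : ℝ) + 1) ^ (s + 2) := by
  unfold BX
  rw [Fintype.card_piFinset]
  simp only [Int.card_Icc, Finset.prod_const, Finset.card_univ, Fintype.card_fin]
  have : ((H : ℤ) + 1 - -(H : ℤ)).toNat = 2 * H + 1 := by omega
  rw [this]
  push_cast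
  rfl

/-- **TEL** -/
theorem tel : S_TEL := by
  intro k s H K g w F M W S hW hS hw hb hms
  -- the factors of the telescoping sum
  set fF : (i : Fin k) → (Fin (s i + 2) → ℤ) → ℕ → ℂ := fun i c n => F i (pv (s i) (g i) c n).natAbs with hfF
  set fM : (i : Fin k) → (Fin (s i + 2) → ℤ) → ℕ → ℂ := fun i c n => M i (pv (s i) (g i) c n).natAbs with hfM
  set P : Fin k → ((i : Fin k) → Fin (s i + 2) → ℤ) → ℕ → ℂ := fun j c n =>
    (∏ i ∈ Finset.univ.filter (fun i => i < j), fF i (c i) n) *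
      ∏ i ∈ Finset.univ.filter (fun i => j < i), fM i (c i) n with hP
  have hW0 : (0 : ℝ) < W := by linarith
  have hprod : ∀ (c : (i : Fin k) → Fin (s i + 2) → ℤ) (n : ℕ),
      ∏ i, fF i (c i) n - ∏ i, fM i (c i) n = ∑ j, (fF j (c j) n - fM j (c j) n) * P j c n := by
    intro c n
    have h1 := Finset.prod_add_ordered Finset.univ (fun i => fM i (c i) n) (fun i => fF i (c i) n - fM i (c i) n)
    simp only [add_sub_cancel] at h1
    rw [h1, add_sub_cancel_left]
    refine Finset.sum_congr rfl fun j _ => ?_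
    rw [hP, mul_assoc]
  have hPup : ∀ j c u n, P j (Function.update c j u) n = P j c n := by
    intro j c u n
    rw [hP]
    simp only
    congr 1
    · refine Finset.prod_congr rfl fun i hi => ?_
      rw [Function.update_of_ne (ne_of_lt (Finset.mem_filter.1 hi).2)]
    · refine Finset.prod_congr rfl fun i hi => ?_
      rw [Function.update_of_ne (ne_of_gt (Finset.mem_filter.1 hi).2)]
  have hPle : ∀ j, ∀ c ∈ SB k s H, ∀ n ∈ Finset.Icc 1 K, ‖P j c n‖ ≤ W ^ k := by
    intro j c hc n hn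
    have hc' : ∀ i, c i ∈ BX (s i) H := by
      unfold SB at hc
      exact Fintype.mem_piFinset.1 hc
    rw [hP]
    simp only
    rw [norm_mul, norm_prod, norm_prod]
    have h1 : ∏ i ∈ Finset.univ.filter (fun i => i < j), ‖fF i (c i) n‖ ≤
        ∏ i ∈ Finset.univ.filter (fun i => i < j), W :=
      Finset.prod_le_prod (fun _ _ => norm_nonneg _) fun i _ => (hb i (c i) (hc' i) n hn).1
    have h2 : ∏ i ∈ Finset.univ.filter (fun i => j < i), ‖fM i (c i) n‖ ≤
        ∏ i ∈ Finset.univ.filter (fun i => j < i), W :=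
      Finset.prod_le_prod (fun _ _ => norm_nonneg _) fun i _ => (hb i (c i) (hc' i) n hn).2
    rw [Finset.prod_const] at h1 h2
    have h3 : (Finset.univ.filter (fun i => i < j)).card + (Finset.univ.filter (fun i => j < i)).card ≤ k := by
      rw [← Finset.card_union_of_disjoint]
      · calc _ ≤ (Finset.univ : Finset (Fin k)).card := Finset.card_le_card (Finset.subset_univ _)
          _ = k := by simp
      · rw [Finset.disjoint_filter]
        intro i _ h4 h5
        exact lt_asymm h4 h5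
    calc _ ≤ W ^ (Finset.univ.filter (fun i => i < j)).card * W ^ (Finset.univ.filter (fun i => j < i)).card :=
          mul_le_mul h1 h2 (Finset.prod_nonneg fun _ _ => norm_nonneg _) (by positivity)
      _ = W ^ ((Finset.univ.filter (fun i => i < j)).card + (Finset.univ.filter (fun i => j < i)).card) :=
          (pow_add _ _ _).symm
      _ ≤ W ^ k := pow_le_pow_right₀ hW h3
  -- one term
  have hone : ∀ j, ∑ c ∈ SB k s H, ‖∑ n ∈ Finset.Icc 1 K, w n * ((fF j (c j) n - fM j (c j) n) * P j c n)‖ ^ 2 ≤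
      ((SB k s H).card : ℝ) * (W ^ (2 * k) * S) := by
    intro j
    have h1 := sum_update (fun i => BX (s i) H) j
      (fun c => ‖∑ n ∈ Finset.Icc 1 K, w n * ((fF j (c j) n - fM j (c j) n) * P j c n)‖ ^ 2)
    have h2 : ∀ c ∈ SB k s H, ∑ u ∈ BX (s j) H, ‖∑ n ∈ Finset.Icc 1 K, w n *
        ((fF j (Function.update c j u j) n - fM j (Function.update c j u j) n) *
          P j (Function.update c j u) n)‖ ^ 2 ≤ ((BX (s j) H).card : ℝ) * (W ^ (2 * k) * S) := by
      intro c hc
      have h3 := hms j (fun n => if n ∈ Finset.Icc 1 K then w n * P j c n / (W : ℂ) ^ k else 0) (by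
        intro n
        split_ifs with hn
        · rw [norm_div, norm_mul, norm_pow, Complex.norm_real, Real.norm_eq_abs, abs_of_pos hW0,
            div_le_one (by positivity)]
          calc ‖w n‖ * ‖P j c n‖ ≤ 1 * W ^ k := mul_le_mul (hw n) (hPle j c hc n hn) (norm_nonneg _) zero_le_one
            _ = W ^ k := one_mul _
        · rw [norm_zero]
          exact zero_le_one)
      have h4 : ∀ u, ‖∑ n ∈ Finset.Icc 1 K, w n * ((fF j (Function.update c j u j) n -
          fM j (Function.update c j u j) n) * P j (Function.update c j u) n)‖ ^ 2 =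
          W ^ (2 * k) * ‖∑ n ∈ Finset.Icc 1 K, (if n ∈ Finset.Icc 1 K then w n * P j c n / (W : ℂ) ^ k else 0) *
            (F j (pv (s j) (g j) u n).natAbs - M j (pv (s j) (g j) u n).natAbs)‖ ^ 2 := by
        intro u
        have h5 : ∑ n ∈ Finset.Icc 1 K, w n * ((fF j (Function.update c j u j) n -
          fM j (Function.update c j u j) n) * P j (Function.update c j u) n) =
          (W : ℂ) ^ k * ∑ n ∈ Finset.Icc 1 K, (if n ∈ Finset.Icc 1 K then w n * P j c n / (W : ℂ) ^ k else 0) *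
            (F j (pv (s j) (g j) u n).natAbs - M j (pv (s j) (g j) u n).natAbs) := by
          rw [Finset.mul_sum]
          refine Finset.sum_congr rfl fun n hn => ?_
          have hWc : (W : ℂ) ^ k ≠ 0 := pow_ne_zero _ (by exact_mod_cast hW0.ne')
          rw [if_pos hn, hPup, Function.update_self, hfF, hfM]
          field_simp
        rw [h5, norm_mul, mul_pow, norm_pow, Complex.norm_real, Real.norm_eq_abs, abs_of_pos hW0, ← pow_mul,
          mul_comm k 2]
      rw [Finset.sum_congr rfl fun u _ => h4 u, ← Finset.mul_sum, card_BX]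
      calc _ ≤ W ^ (2 * k) * ((2 * (H : ℝ) + 1) ^ (s j + 2) * S) := by gcongr
        _ = _ := by ring
    have h6 : ((BX (s j) H).card : ℝ) * ∑ c ∈ SB k s H,
        ‖∑ n ∈ Finset.Icc 1 K, w n * ((fF j (c j) n - fM j (c j) n) * P j c n)‖ ^ 2 ≤
        ((BX (s j) H).card : ℝ) * (((SB k s H).card : ℝ) * (W ^ (2 * k) * S)) := by
      unfold SB at h1 h2 ⊢
      rw [h1]
      refine (Finset.sum_le_sum h2).trans ?_
      rw [Finset.sum_const, nsmul_eq_mul]
      apply le_of_eq
      ring
    exact le_of_mul_le_mul_left h6 (card_BX_pos _ _)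
  -- Cauchy-Schwarz
  have hcs : ∀ c, ‖∑ n ∈ Finset.Icc 1 K, w n * (∏ i, fF i (c i) n - ∏ i, fM i (c i) n)‖ ^ 2 ≤
      (k : ℝ) * ∑ j, ‖∑ n ∈ Finset.Icc 1 K, w n * ((fF j (c j) n - fM j (c j) n) * P j c n)‖ ^ 2 := by
    intro c
    have h1 : ∑ n ∈ Finset.Icc 1 K, w n * (∏ i, fF i (c i) n - ∏ i, fM i (c i) n) =
        ∑ j, ∑ n ∈ Finset.Icc 1 K, w n * ((fF j (c j) n - fM j (c j) n) * P j c n) := by
      rw [Finset.sum_comm]
      refine Finset.sum_congr rfl fun n _ => ?_
      rw [hprod, Finset.mul_sum]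
    rw [h1]
    have h2 := norm_sum_le (Finset.univ : Finset (Fin k))
      (fun j => ∑ n ∈ Finset.Icc 1 K, w n * ((fF j (c j) n - fM j (c j) n) * P j c n))
    have h3 := sq_sum_le_card_mul_sum_sq (s := (Finset.univ : Finset (Fin k)))
      (f := fun j => ‖∑ n ∈ Finset.Icc 1 K, w n * ((fF j (c j) n - fM j (c j) n) * P j c n)‖)
    rw [Finset.card_univ, Fintype.card_fin] at h3
    exact (pow_le_pow_left₀ (norm_nonneg _) h2 2).trans h3
  calc ∑ c ∈ SB k s H, ‖∑ n ∈ Finset.Icc 1 K, w n * (∏ i, fF i (c i) n - ∏ i, fM i (c i) n)‖ ^ 2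
      ≤ ∑ c ∈ SB k s H, (k : ℝ) * ∑ j, ‖∑ n ∈ Finset.Icc 1 K, w n *
        ((fF j (c j) n - fM j (c j) n) * P j c n)‖ ^ 2 := Finset.sum_le_sum fun c _ => hcs c
    _ = (k : ℝ) * ∑ j, ∑ c ∈ SB k s H, ‖∑ n ∈ Finset.Icc 1 K, w n *
        ((fF j (c j) n - fM j (c j) n) * P j c n)‖ ^ 2 := by
        rw [← Finset.mul_sum, Finset.sum_comm]
    _ ≤ (k : ℝ) * ∑ j : Fin k, ((SB k s H).card : ℝ) * (W ^ (2 * k) * S) := by
        gcongr with j _
        exact hone j
    _ = ((SB k s H).card : ℝ) * ((k : ℝ) ^ 2 * W ^ (2 * k) * S) := by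
        rw [Finset.sum_const, Finset.card_univ, Fintype.card_fin, nsmul_eq_mul]
        ring

end Pool.Agent.Q162.CR
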